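import Mathlib
import Pool.Agent.X198.WPs

/-!
# MP_f8a8cb_gt: weakly pseudocompact neighbourhoods give pseudocompact neighbourhoods

Let `G` be a subgroup of a locally compact group `H` having an open neighbourhood of the identity
with weakly pseudocompact closure. Then `G` meets every `G_δ` subset of `H` which meets the closure
of `G`, and some open neighbourhood of the identity of `G` has pseudocompact closure.

Proof: let `G` be dense in `H`, let `K` be a compactification of `cl U` in which `cl U` is
`G_δ`-dense, and let `t ∈ H` be small. One builds decreasing open sets `V n`, `V' n` of `K`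
(with `cl V (n+1) ⊆ V n`) whose traces on `cl U` are, up to the translation by `t`, inside smaller
and smaller open subsets of `H`; points `y ∈ ⋂ V n`, `y' ∈ ⋂ V' n` of `cl U` then satisfy
`y y'⁻¹ ∈ t F n` for all `n`, where `F n` are the given neighbourhoods of the identity.
-/

set_option autoImplicit false

namespace Pool.Agent.Results.MP_f8a8cb_gt.Proof

open Pool.Agent.X198.WPs

universe u v

theorem result {H : Type u} [Group H] [TopologicalSpace H] [IsTopologicalGroup H] [T2Space H]
    [LocallyCompactSpace H] (G : Subgroup H)
    (h : ∃ U : Set G, IsOpen U ∧ 1 ∈ U ∧ WeaklyPseudocompact.{u, v} (closure U)) :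
    (∃ V : Set G, IsOpen V ∧ 1 ∈ V ∧ Pseudocompact (closure V)) ∧
    ∀ S : Set H, IsGδ S → (S ∩ closure (G : Set H)).Nonempty → (S ∩ G).Nonempty := by
  obtain ⟨U, hU, h1, hw⟩ := h
  exact (main G U hU h1 hw).symm

end Pool.Agent.Results.MP_f8a8cb_gt.Proof
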